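import Pool.Agent.FS.LightPairs.Count

/-! Equality in the swap injections. -/

namespace Pool.Agent.FS.StrictGap

open Set Pool.Agent.FS.LightPairs

variable {X Y : Type} [Finite X] [PartialOrder X] [LinearOrder Y]

/-- Every pair of nested down-sets is respected by some linear extension. -/
def Rich (X Y : Type) [PartialOrder X] [LinearOrder Y] : Prop :=
  ∀ s t : X, ∃ g : X ≃ Y, StrictMono (⇑g) ∧ (∀ x y, x ≤ s → ¬ y ≤ s → g x < g y) ∧
    ∀ x y, x ≤ t → ¬ y ≤ s → ¬ y ≤ t → g x < g y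

theorem rich (X : Type) [Fintype X] [PartialOrder X] : Rich X (Fin (Fintype.card X)) := by
  classical
  intro s t
  have he := e_pos X
  unfold e at he
  obtain ⟨f, hf⟩ := (ncard_pos (toFinite _)).1 he
  have hf : StrictMono (⇑f) := hf
  let h : X → ℕ := fun x => if x ≤ s then 0 else if x ≤ t then 1 else 2
  have hmono : ∀ x y, x ≤ y → h x ≤ h y := by
    intro x y hxy
    simp only [h]
    by_cases h1 : y ≤ s
    · rw [if_pos h1, if_pos (hxy.trans h1)]
    · rw [if_neg h1]
      by_cases h2 : y ≤ t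
      · rw [if_pos h2, if_pos (hxy.trans h2)]
        split_ifs <;> omega
      · rw [if_neg h2]
        split_ifs <;> omega
  let k : X → ℕ ×ₗ Fin (Fintype.card X) := fun x => toLex (h x, f x)
  have kinj : Function.Injective k := fun x y hxy =>
    f.injective (congrArg (fun z => (ofLex z).2) hxy)
  have klt : ∀ x y, k x < k y ↔ h x < h y ∨ (h x = h y ∧ f x < f y) := fun x y =>
    Prod.Lex.toLex_lt_toLex
  let S : Finset (ℕ ×ₗ Fin (Fintype.card X)) := Finset.univ.image k
  have hS : S.card = Fintype.card X := by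
    rw [Finset.card_image_of_injective _ kinj, Finset.card_univ]
  let j : X → S := fun x => ⟨k x, Finset.mem_image_of_mem _ (Finset.mem_univ x)⟩
  have jb : Function.Bijective j := ⟨fun x y hxy => kinj (congrArg Subtype.val hxy), fun z => by
    obtain ⟨x, _, hx⟩ := Finset.mem_image.1 z.2
    exact ⟨x, Subtype.ext hx⟩⟩
  let g : X ≃ Fin (Fintype.card X) := (Equiv.ofBijective j jb).trans (S.orderIsoOfFin hS).symm.toEquiv
  have hg : ∀ x y, k x < k y → g x < g y := fun x y hxy =>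
    (S.orderIsoOfFin hS).symm.strictMono (show j x < j y from hxy)
  refine ⟨g, fun x y hxy => hg x y ((klt x y).2 ?_), fun x y h1 h2 => hg x y ((klt x y).2 ?_),
    fun x y h1 h2 h3 => hg x y ((klt x y).2 ?_)⟩
  · rcases (hmono x y hxy.le).lt_or_eq with h1 | h1
    · exact Or.inl h1
    · exact Or.inr ⟨h1, hf hxy⟩
  · left
    simp only [h]
    rw [if_pos h1, if_neg h2]
    split_ifs <;> omega
  · left
    simp only [h]
    rw [if_pos h1, if_neg h2, if_neg h3]
    split_ifs <;> omega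

omit [PartialOrder X] [LinearOrder Y] in
open Classical in
theorem swap_lt (p q : X) (S T : Set (X ≃ Y)) (h : ∀ f ∈ S, (Equiv.swap p q).trans f ∈ T)
    (g : X ≃ Y) (hg : g ∈ T) (hg' : (Equiv.swap p q).trans g ∉ S) : S.ncard < T.ncard := by
  refine lt_of_le_of_lt (ncard_le_ncard_of_injOn (fun f => (Equiv.swap p q).trans f)
    (t := T \ {g}) (fun f hf => ⟨h f hf, fun hh => hg' ?_⟩) ?_ (toFinite _))
    (ncard_sdiff_singleton_lt_of_mem hg (toFinite _))
  · have : (Equiv.swap p q).trans g = f := by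
      rw [← mem_singleton_iff.1 hh]
      ext x
      simp
    exact this ▸ hf
  · intro f _ f' _ hfg
    ext x
    have := congrArg (fun k : X ≃ Y => k (Equiv.swap p q x)) hfg
    simpa using this

/-- `a < q` and `p` form an autonomous copy of the three-element poset with one relation. -/
structure Mod {X : Type} [PartialOrder X] (a q p : X) : Prop where
  lt : a < q
  ia : Inc a p
  iq : Inc q p
  d1 : ∀ w, w < p ↔ w < a
  d2 : ∀ w, w < q ↔ w = a ∨ w < p
  u1 : ∀ t, p < t ↔ q < t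
  u2 : ∀ t, a < t ↔ t = q ∨ p < t

omit [Finite X] in
theorem Mod.dual {a q p : X} (h : Mod a q p) :
    Mod (X := Xᵒᵈ) (OrderDual.toDual q) (OrderDual.toDual a) (OrderDual.toDual p) :=
  ⟨h.lt, ⟨h.iq.2, h.iq.1⟩, ⟨h.ia.2, h.ia.1⟩, h.u1, h.u2, h.d1, h.d2⟩

theorem eq_case (R : Rich X Y) {p q : X} (h : Inc p q) (hU : ∀ z, p < z → q < z) (a : X)
    (ha : ∀ w, w < q → w < p ∨ w = a) (he : 0 < N Y p q) (hM : 2 * N Y q p ≤ N Y p q) :
    Mod a q p := by
  classical
  set S1 : Set (X ≃ Y) := {f | StrictMono (⇑f) ∧ f p < f q ∧ ∀ w, w < q → f w < f p} with hS1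
  set S2 : Set (X ≃ Y) := {f | StrictMono (⇑f) ∧ f p < f q ∧ ¬ ∀ w, w < q → f w < f p} with hS2
  have m1 : ∀ f ∈ S1, (Equiv.swap p q).trans f ∈ {f : X ≃ Y | StrictMono (⇑f) ∧ f q < f p} := by
    rintro f ⟨hf, hpq, hw⟩
    refine ⟨swap_mono hf h hpq hw fun z hz => hf (hU z hz), ?_⟩
    simpa using hpq
  have wa : ∀ f ∈ S2, a < q ∧ f p ≤ f a := by
    rintro f ⟨hf, hpq, hw⟩
    push Not at hw
    obtain ⟨w, hwq, hw⟩ := hw
    rcases ha w hwq with h3 | h3
    · exact absurd (hf h3) (not_lt.2 hw)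
    · exact h3 ▸ ⟨hwq, hw⟩
  have m2 : ∀ f ∈ S2, (Equiv.swap p a).trans f ∈ S1 := by
    intro f hf2
    obtain ⟨hwq, hw⟩ := wa f hf2
    obtain ⟨hf, hpq, -⟩ := hf2
    have hne : p ≠ a := fun hh => h.1 (hh ▸ hwq.le)
    have hlt : f p < f a := lt_of_le_of_ne hw fun hh => hne (f.injective hh)
    have hinc : Inc p a := ⟨fun hh => h.1 (hh.trans hwq.le),
      fun hh => absurd (hf.monotone hh) (not_le.2 hlt)⟩
    have hm : StrictMono (⇑((Equiv.swap p a).trans f)) := by
      refine swap_mono hf hinc hlt (fun s hs => ?_) fun z hz => hf (hwq.trans (hU z hz))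
      rcases ha s (hs.trans hwq) with h3 | h3
      · exact hf h3
      · exact absurd h3 hs.ne
    refine ⟨hm, ?_, fun s hs => ?_⟩
    · simp only [Equiv.trans_apply, Equiv.swap_apply_left]
      rw [Equiv.swap_apply_of_ne_of_ne h.ne.symm hwq.ne']
      exact hf hwq
    · rcases ha s hs with h3 | h3
      · exact hm h3
      · subst h3
        simpa using hlt
  have h1 : S1.ncard ≤ N Y q p := swap_le p q _ _ m1
  have h2 : S2.ncard ≤ S1.ncard := swap_le p a _ _ m2
  have h3 : N Y p q ≤ S1.ncard + S2.ncard := by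
    refine le_trans (ncard_le_ncard ?_ (toFinite _)) (ncard_union_le _ _)
    rintro f ⟨hf, hpq⟩
    by_cases h4 : ∀ w, w < q → f w < f p
    · exact Or.inl ⟨hf, hpq, h4⟩
    · exact Or.inr ⟨hf, hpq, h4⟩
  have e1 : ∀ g : X ≃ Y, StrictMono (⇑g) → g q < g p →
      StrictMono (⇑((Equiv.swap p q).trans g)) := by
    intro g hg hqp
    by_contra hc
    have : S1.ncard < N Y q p := swap_lt p q _ _ m1 g ⟨hg, hqp⟩ fun hh => hc hh.1
    omega
  have e2 : ∀ g ∈ S1, StrictMono (⇑((Equiv.swap p a).trans g)) := by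
    intro g hg
    by_contra hc
    have : S2.ncard < S1.ncard := swap_lt p a _ _ m2 g hg fun hh => hc hh.1
    omega
  obtain ⟨f0, hf0⟩ := (ncard_pos (s := S2) (toFinite _)).1 (by omega)
  obtain ⟨haq, hw0⟩ := wa f0 hf0
  have hne : p ≠ a := fun hh => h.1 (hh ▸ haq.le)
  have ipa : Inc a p := ⟨fun hh => absurd (hf0.1 (lt_of_le_of_ne hh hne.symm)) (not_lt.2 hw0),
    fun hh => h.1 (hh.trans haq.le)⟩
  have c1 : ∀ t, q < t → p < t := by
    intro t ht
    by_contra hc
    have hp : ¬ p ≤ t := fun hh => hc (lt_of_le_of_ne hh fun h4 => h.2 (h4 ▸ ht.le))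
    obtain ⟨g, hg, g1, -⟩ := R t t
    have g2 := g1 t p le_rfl hp
    have := e1 g hg ((hg ht).trans g2) ht
    simp only [Equiv.trans_apply, Equiv.swap_apply_right] at this
    rw [Equiv.swap_apply_of_ne_of_ne (fun hh => hp hh.ge) ht.ne'] at this
    exact lt_asymm this g2
  have c4 : ∀ w, w < p → w < a := by
    intro w hw
    by_contra hc
    have hwa : ¬ w ≤ a := fun hh => hc (lt_of_le_of_ne hh fun h4 => ipa.1 (h4 ▸ hw.le))
    obtain ⟨g, hg, g1, g2⟩ := R a p
    have g3 := g1 a w le_rfl hwa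
    have := e2 g ⟨hg, g2 p q le_rfl (not_le_of_gt haq) h.2, fun s hs => by
      rcases ha s hs with h4 | h4
      · exact hg h4
      · exact h4 ▸ g1 a p le_rfl ipa.2⟩ hw
    simp only [Equiv.trans_apply, Equiv.swap_apply_left] at this
    rw [Equiv.swap_apply_of_ne_of_ne hw.ne (fun hh => hwa hh.le)] at this
    exact lt_asymm this g3
  have c5 : ∀ t, a < t → t = q ∨ p < t := by
    intro t ht
    by_contra hc
    push Not at hc
    have hp : ¬ p ≤ t := fun hh => hc.2 (lt_of_le_of_ne hh fun h4 => ipa.1 (h4 ▸ ht.le))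
    have hq : ¬ q ≤ t := fun hh => hc.2 (c1 t (lt_of_le_of_ne hh (Ne.symm hc.1)))
    obtain ⟨g, hg, g1, g2⟩ := R t p
    have g3 := g1 t p le_rfl hp
    have := e2 g ⟨hg, g2 p q le_rfl hq h.2, fun s hs => by
      rcases ha s hs with h4 | h4
      · exact hg h4
      · exact h4 ▸ (hg ht).trans g3⟩ ht
    simp only [Equiv.trans_apply, Equiv.swap_apply_right] at this
    rw [Equiv.swap_apply_of_ne_of_ne (fun hh => hp hh.ge) ht.ne'] at this
    exact lt_asymm this g3
  refine ⟨haq, ipa, h.symm, fun w => ⟨c4 w, fun hw => ?_⟩, fun w => ⟨fun hw => (ha w hw).symm, ?_⟩,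
    fun t => ⟨hU t, c1 t⟩, fun t => ⟨c5 t, ?_⟩⟩
  · exact (ha w (hw.trans haq)).resolve_right hw.ne
  · rintro (rfl | hw)
    · exact haq
    · exact (c4 w hw).trans haq
  · rintro (rfl | ht)
    · exact haq
    · exact haq.trans (hU t ht)

end Pool.Agent.FS.StrictGap
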