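import Pool.Agent.FS.StrictGap.Main

/-! The count outside the three-element summands. -/

namespace Pool.Agent.FS.StrictGap

open Set Pool.Agent.FS.LightPairs

variable {X : Type} [PartialOrder X] {M : X → X → Prop}

theorem sbX (h : WMaj M) (c : Cls X) {p q w₀ : X} (i : Inc p q) (hM : M p q)
    (hU : ∀ z, p < z → q < z) (h0 : M w₀ p ∨ w₀ = p) (ha : ∀ w, w < q → w < p ∨ w ≤ w₀) :
    ∃ a, Mod a q p := by
  have key : ∀ s, s < q → ¬ s < p → s = w₀ := by
    intro s s1 s2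
    by_contra hc
    have j := lo i s1 s2
    have h1 : s < w₀ := lt_of_le_of_ne ((ha s s1).resolve_left s2) hc
    have h2 : M w₀ p := h0.resolve_right fun hh => s2 (hh ▸ h1)
    refine gdown h c h1 ⟨fun hh => ?_, fun hh => s2 (lt_of_lt_of_le h1 hh)⟩ j h2
    rcases hh.lt_or_eq with h3 | h3
    · exact h.irrefl _ (h.trans _ _ _ h2 (h.ext _ _ h3))
    · exact s2 (h3 ▸ h1)
  exact ⟨w₀, h.ea p q w₀ i hM hU fun w hw => (em (w < p)).imp_right (key w hw)⟩

theorem saX (h : WMaj M) (c : Cls X) {p q z₀ : X} (i : Inc p q) (hM : M p q)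
    (hD : ∀ w, w < q → w < p) (h0 : M q z₀ ∨ z₀ = q) (hb : ∀ z, p < z → q < z ∨ z₀ ≤ z) :
    ∃ b, Mod p b q := by
  obtain ⟨b, m⟩ := sbX (p := OrderDual.toDual q) (q := OrderDual.toDual p)
    (w₀ := OrderDual.toDual z₀) h.dual c.dual ⟨i.1, i.2⟩ hM hD h0 hb
  exact ⟨OrderDual.ofDual b, m.dual⟩

/-- `x` lies in an autonomous copy of the three-element poset with one relation. -/
def InT (x : X) : Prop := ∃ a q p, Mod a q p ∧ (x = a ∨ x = q ∨ x = p)

theorem cmpT (h : WMaj M) (c : Cls X) {x z : X} (hz : InT z) (hx : ¬ InT x) : x < z ∨ z < x := by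
  obtain ⟨a, q, p, m, hz⟩ := hz
  rcases summand h c m x (fun hh => hx ⟨a, q, p, m, Or.inl hh⟩)
    (fun hh => hx ⟨a, q, p, m, Or.inr (Or.inl hh)⟩)
    (fun hh => hx ⟨a, q, p, m, Or.inr (Or.inr hh)⟩) with h1 | h1 <;>
  rcases hz with rfl | rfl | rfl <;> tauto

theorem inT [Finite X] (h : WMaj M) (c : Cls X) {a b : X} (i : Inc a b) : InT a := by
  classical
  by_contra ha
  have hb : ¬ InT b := fun hb => (cmpT h c hb ha).elim (fun hh => i.1 hh.le) fun hh => i.2 hh.le
  have := Fintype.ofFinite {x : X // ¬ InT x}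
  have up : ∀ p q : {x : X // ¬ InT x}, Inc p q → ∀ z : X, InT z → p.1 < z → q.1 < z :=
    fun p q i z hz h1 => (cmpT h c hz q.2).resolve_right fun h2 => i.1 (h1.trans h2).le
  have dn : ∀ p q : {x : X // ¬ InT x}, Inc p q → ∀ w : X, InT w → w < q.1 → w < p.1 :=
    fun p q i w hw h1 => (cmpT h c hw p.2).resolve_left fun h2 => i.1 (h2.trans h1).le
  refine count (X := {x : X // ¬ InT x}) (M := fun x y => M x.1 y.1)
    ⟨fun x => h.irrefl _, fun _ _ _ => h.trans _ _ _,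
      fun x y hxy => h.total _ _ fun hh => hxy (Subtype.ext hh), fun _ _ hxy => h.ext _ _ hxy,
      fun p q w i hM hU h0 hw => ?_, fun p q z i hM hD h0 hz => ?_⟩
    (fun u v y z _ h2 _ i2 _ i4 _ => gup h c (y := y.1) (z := z.1) (v := v.1) h2 i2 i4)
    (fun y u v w h1 _ i1 _ _ i4 _ => gdown h c (y := y.1) (w := w.1) (u := u.1) h1 i1.symm i4)
    ⟨⟨a, ha⟩, ⟨b, hb⟩, i⟩
  · obtain ⟨s, m⟩ := sbX h c (p := p.1) (q := q.1) (w₀ := w.1) i hM
      (fun z hz => (em (InT z)).elim (fun h1 => up p q i z h1 hz) fun h1 => hU ⟨z, h1⟩ hz)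
      (h0.imp_right (congrArg Subtype.val)) fun z hz =>
      (em (InT z)).elim (fun h1 => Or.inl (dn p q i z h1 hz)) fun h1 => hw ⟨z, h1⟩ hz
    exact p.2 ⟨s, _, _, m, Or.inr (Or.inr rfl)⟩
  · obtain ⟨s, m⟩ := saX h c (p := p.1) (q := q.1) (z₀ := z.1) i hM
      (fun w hw => (em (InT w)).elim (fun h1 => dn p q i w h1 hw) fun h1 => hD ⟨w, h1⟩ hw)
      (h0.imp_right (congrArg Subtype.val)) fun w hw =>
      (em (InT w)).elim (fun h1 => Or.inl (up p q i w h1 hw)) fun h1 => hz ⟨w, h1⟩ hw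
    exact p.2 ⟨_, s, _, m, Or.inl rfl⟩

theorem deg [Finite X] (h : WMaj M) (c : Cls X) {a b : X} (i : Inc a b) :
    {z | Inc a z}.ncard + {z | Inc b z}.ncard = 3 := by
  obtain ⟨u, q, p, m, ha⟩ := inT h c i
  have s := summand h c m
  have out : ∀ x z, (x = u ∨ x = q ∨ x = p) → Inc x z → z = u ∨ z = q ∨ z = p := by
    intro x z hx j
    by_contra hc
    push Not at hc
    rcases s z hc.1 hc.2.1 hc.2.2 with h1 | h1 <;> rcases hx with rfl | rfl | rfl
    · exact j.2 h1.1.le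
    · exact j.2 h1.2.1.le
    · exact j.2 h1.2.2.le
    · exact j.1 h1.1.le
    · exact j.1 h1.2.1.le
    · exact j.1 h1.2.2.le
  have e1 : {z | Inc u z} = {p} := by
    ext z
    refine ⟨fun j => ?_, fun j => mem_singleton_iff.1 j ▸ m.ia⟩
    rcases out u z (Or.inl rfl) j with rfl | rfl | rfl
    · exact absurd rfl j.ne
    · exact absurd m.lt.le j.1
    · rfl
  have e2 : {z | Inc q z} = {p} := by
    ext z
    refine ⟨fun j => ?_, fun j => mem_singleton_iff.1 j ▸ m.iq⟩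
    rcases out q z (Or.inr (Or.inl rfl)) j with rfl | rfl | rfl
    · exact absurd m.lt.le j.2
    · exact absurd rfl j.ne
    · rfl
  have e3 : {z | Inc p z} = {u, q} := by
    ext z
    refine ⟨fun j => ?_, fun j => ?_⟩
    · rcases out p z (Or.inr (Or.inr rfl)) j with rfl | rfl | rfl
      · exact Or.inl rfl
      · exact Or.inr rfl
      · exact absurd rfl j.ne
    · rcases j with rfl | rfl
      · exact m.ia.symm
      · exact m.iq.symm
  have n3 : {z | Inc p z}.ncard = 2 := by rw [e3, ncard_pair m.lt.ne]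
  have n1 : {z | Inc u z}.ncard = 1 := by rw [e1, ncard_singleton]
  have n2 : {z | Inc q z}.ncard = 1 := by rw [e2, ncard_singleton]
  rcases ha with rfl | rfl | rfl
  · have : b = p := mem_singleton_iff.1 (e1 ▸ (show b ∈ {z | Inc a z} from i))
    rw [this, n1, n3]
  · have : b = p := mem_singleton_iff.1 (e2 ▸ (show b ∈ {z | Inc a z} from i))
    rw [this, n2, n3]
  · have : b ∈ ({u, q} : Set X) := e3 ▸ (show b ∈ {z | Inc a z} from i)
    rcases this with rfl | rfl
    · rw [n1, n3]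
    · rw [n2, n3]

end Pool.Agent.FS.StrictGap
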