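import Pool.Agent.FS.StrictGap.Eq

/-! The weak majority order and the classification of the equality case. -/

namespace Pool.Agent.FS.StrictGap

open Set Pool.Agent.FS.LightPairs

section
variable {X Y : Type} [Finite X] [PartialOrder X] [LinearOrder Y]

/-- Two nested up-sets, for the dual order. -/
theorem rich_dual (X : Type) [Fintype X] [PartialOrder X] :
    Rich Xᵒᵈ (Fin (Fintype.card X))ᵒᵈ := by
  intro s t
  obtain ⟨g, hg, g1, g2⟩ := rich Xᵒᵈ s t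
  let r : Fin (Fintype.card Xᵒᵈ) ≃o (Fin (Fintype.card X))ᵒᵈ := Fin.revOrderIso.symm
  exact ⟨g.trans r.toEquiv, fun _ _ h => r.strictMono (hg h),
    fun x y h1 h2 => r.strictMono (g1 x y h1 h2), fun x y h1 h2 h3 => r.strictMono (g2 x y h1 h2 h3)⟩

/-- What is used of the weak majority order. -/
structure WMaj {X : Type} [PartialOrder X] (M : X → X → Prop) : Prop where
  irrefl : ∀ x, ¬ M x x
  trans : ∀ x y z, M x y → M y z → M x z
  total : ∀ x y, x ≠ y → M x y ∨ M y x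
  ext : ∀ x y, x < y → M x y
  ea : ∀ p q a, Inc p q → M p q → (∀ z, p < z → q < z) → (∀ w, w < q → w < p ∨ w = a) →
    Mod a q p
  eb : ∀ p q b, Inc p q → M p q → (∀ w, w < q → w < p) → (∀ z, p < z → q < z ∨ z = b) →
    Mod p b q

theorem N_tri_lt (R : Rich X Y) {x y z : X} (h1 : ¬ y ≤ z) (h2 : ¬ x ≤ z) (h3 : ¬ x ≤ y) :
    N Y z x < N Y y x + N Y z y := by
  obtain ⟨g, hg, g1, g2⟩ := R z y
  have a1 : g z < g y := g1 z y le_rfl h1
  have a2 : g y < g x := g2 y x le_rfl h2 h3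
  unfold N
  refine lt_of_le_of_lt (ncard_le_ncard (t := {f : X ≃ Y | StrictMono (⇑f) ∧ f y < f x} ∪
    ({f : X ≃ Y | StrictMono (⇑f) ∧ f z < f y} \ {g})) ?_ (toFinite _))
    (lt_of_le_of_lt (ncard_union_le _ _) (Nat.add_lt_add_left
      (ncard_sdiff_singleton_lt_of_mem (show g ∈ {f : X ≃ Y | StrictMono (⇑f) ∧ f z < f y} from ⟨hg, a1⟩) (toFinite _)) _))
  rintro f ⟨hf, h⟩
  by_cases h4 : f y < f x
  · exact Or.inl ⟨hf, h4⟩
  · refine Or.inr ⟨⟨hf, lt_of_lt_of_le h (not_lt.1 h4)⟩, fun hh => h4 ?_⟩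
    rw [mem_singleton_iff.1 hh]
    exact a2

theorem wmaj (R : Rich X Y) (R' : Rich Xᵒᵈ Yᵒᵈ) (he : 0 < e X Y)
    (h : ∀ x y : X, x ≠ y → 3 * N Y x y ≤ e X Y ∨ 2 * e X Y ≤ 3 * N Y x y) :
    WMaj (fun x y : X => 2 * e X Y ≤ 3 * N Y x y) := by
  have irr : ∀ x : X, ¬ 2 * e X Y ≤ 3 * N Y x x := fun x => by rw [N_self]; omega
  have hne : ∀ x y : X, 2 * e X Y ≤ 3 * N Y x y → x ≠ y := fun x y hxy hh => irr x (hh ▸ hxy)
  refine ⟨irr, ?_, ?_, ?_, ?_, ?_⟩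
  · intro x y z hxy hyz
    have h1 := N_add (Y := Y) (hne _ _ hxy)
    have h2 := N_add (Y := Y) (hne _ _ hyz)
    have hxz : x ≠ z := by
      rintro rfl
      omega
    have h3 := N_add (Y := Y) hxz
    have h4 := N_tri (Y := Y) x y z
    rcases h x z hxz with h5 | h5
    · exfalso
      have n1 : ¬ y ≤ z := fun hh => by
        have := N_of_lt (Y := Y) (lt_of_le_of_ne hh (hne _ _ hyz))
        omega
      have n2 : ¬ x ≤ z := fun hh => by
        have := N_of_lt (Y := Y) (lt_of_le_of_ne hh hxz)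
        omega
      have n3 : ¬ x ≤ y := fun hh => by
        have := N_of_lt (Y := Y) (lt_of_le_of_ne hh (hne _ _ hxy))
        omega
      have := N_tri_lt R n1 n2 n3
      omega
    · exact h5
  · intro x y hxy
    have h1 := N_add (Y := Y) hxy
    rcases h x y hxy with h5 | h5 <;> omega
  · intro x y hxy
    rw [N_of_lt hxy]
    omega
  · intro p q a hi hM hU ha
    have h1 := N_add (Y := Y) hi.ne
    exact eq_case R hi hU a ha (by omega) (by omega)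
  · intro p q b hi hM hD hb
    have h1 := N_add (Y := Y) hi.ne
    exact (eq_case (p := OrderDual.toDual q) (q := OrderDual.toDual p) R' ⟨hi.1, hi.2⟩ hD
      (OrderDual.toDual b) hb (by rw [N_dual]; omega) (by rw [N_dual, N_dual]; omega)).dual

end

variable {X : Type} [PartialOrder X] {M : X → X → Prop}

theorem WMaj.dual (h : WMaj M) :
    WMaj (X := Xᵒᵈ) (fun x y => M (OrderDual.ofDual y) (OrderDual.ofDual x)) :=
  ⟨fun _ => h.irrefl _, fun _ _ _ h1 h2 => h.trans _ _ _ h2 h1,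
    fun x y hxy => (h.total (OrderDual.ofDual y) (OrderDual.ofDual x) (Ne.symm hxy)),
    fun _ _ hxy => h.ext _ _ hxy,
    fun _ _ w hi hM hU hw => (h.eb _ _ (OrderDual.ofDual w) ⟨hi.1, hi.2⟩ hM hU hw).dual,
    fun _ _ w hi hM hU hw => (h.ea _ _ (OrderDual.ofDual w) ⟨hi.1, hi.2⟩ hM hU hw).dual⟩

/-- No induced 3+1, V+2, Λ+2. -/
structure Cls (X : Type) [PartialOrder X] : Prop where
  h31 : ∀ a c z v : X, a < c → c < z → ¬ (Inc v a ∧ Inc v c ∧ Inc v z)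
  hV : ∀ b s t c z : X, b < s → b < t → Inc s t → c < z →
    ¬ (Inc b c ∧ Inc b z ∧ Inc s c ∧ Inc s z ∧ Inc t c ∧ Inc t z)
  hL : ∀ b s t c z : X, s < b → t < b → Inc s t → c < z →
    ¬ (Inc b c ∧ Inc b z ∧ Inc s c ∧ Inc s z ∧ Inc t c ∧ Inc t z)

theorem idual {x y : X} (h : Inc (OrderDual.toDual x) (OrderDual.toDual y)) : Inc x y :=
  ⟨h.2, h.1⟩

theorem Cls.dual (h : Cls X) : Cls Xᵒᵈ :=
  ⟨fun a c z v h1 h2 h3 => h.h31 z c a v h2 h1 ⟨idual h3.2.2, idual h3.2.1, idual h3.1⟩,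
    fun b s t c z h1 h2 h3 h4 h5 => h.hL b s t z c h1 h2 (idual h3) h4
      ⟨idual h5.2.1, idual h5.1, idual h5.2.2.2.1, idual h5.2.2.1, idual h5.2.2.2.2.2,
        idual h5.2.2.2.2.1⟩,
    fun b s t c z h1 h2 h3 h4 h5 => h.hV b s t z c h1 h2 (idual h3) h4
      ⟨idual h5.2.1, idual h5.1, idual h5.2.2.2.1, idual h5.2.2.1, idual h5.2.2.2.2.2,
        idual h5.2.2.2.2.1⟩⟩

theorem lo {b c w : X} (i : Inc b c) (h1 : w < c) (h2 : ¬ w < b) : Inc b w :=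
  ⟨fun h => i.1 (h.trans h1.le), fun h => h2 (lt_of_le_of_ne h fun h3 => i.1 (h3 ▸ h1.le))⟩

theorem hi {b c w : X} (i : Inc b c) (h1 : c < w) (h2 : ¬ b < w) : Inc b w :=
  ⟨fun h => h2 (lt_of_le_of_ne h fun h3 => i.2 (h3 ▸ h1.le)), fun h => i.2 (h1.le.trans h)⟩

omit [PartialOrder X] in
theorem one_of {P Q : X → Prop} (x : X) (h : ∀ s t, P s → ¬ Q s → P t → ¬ Q t → s = t) :
    ∃ b, ∀ s, P s → Q s ∨ s = b := by
  by_cases hex : ∃ b, P b ∧ ¬ Q b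
  · obtain ⟨b, h1, h2⟩ := hex
    exact ⟨b, fun s hs => (em (Q s)).imp_right fun h3 => h s b hs h3 h1 h2⟩
  · exact ⟨x, fun s hs => Or.inl (by_contra fun h3 => hex ⟨s, hs, h3⟩)⟩

theorem tri {s t : X} (h : s ≠ t) : s < t ∨ t < s ∨ Inc s t := by
  by_cases h1 : s ≤ t
  · exact Or.inl (lt_of_le_of_ne h1 h)
  · by_cases h2 : t ≤ s
    · exact Or.inr (Or.inl (lt_of_le_of_ne h2 h.symm))
    · exact Or.inr (Or.inr ⟨h1, h2⟩)

theorem gup (h : WMaj M) (c : Cls X) {y z v : X} (hyz : y < z) (i1 : Inc v y) (i2 : Inc v z) :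
    ¬ M v y := by
  intro hM
  obtain ⟨b, hb⟩ := one_of (P := fun s => v < s) (Q := fun s => y < s) v fun s t s1 s2 t1 t2 => by
    by_contra hst
    have j1 := hi i1.symm s1 s2
    have j2 := hi i1.symm t1 t2
    rcases tri hst with h1 | h1 | h1
    · exact c.h31 v s t y s1 h1 ⟨i1.symm, j1, j2⟩
    · exact c.h31 v t s y t1 h1 ⟨i1.symm, j2, j1⟩
    · exact c.hV v s t y z s1 t1 h1 hyz ⟨i1, i2, j1.symm,
        ⟨fun h => i2.1 (s1.le.trans h), fun h => j1.1 (hyz.le.trans h)⟩, j2.symm,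
        ⟨fun h => i2.1 (t1.le.trans h), fun h => j2.1 (hyz.le.trans h)⟩⟩
  have m := h.eb v y b i1 hM (fun w hw => by
    by_contra hc
    exact c.h31 w y z v hw hyz ⟨lo i1 hw hc, i1, i2⟩) hb
  exact i2.1 ((m.u2 z).2 (Or.inr hyz)).le

theorem gdown (h : WMaj M) (c : Cls X) {y w u : X} (hwy : w < y) (i1 : Inc u y) (i2 : Inc u w) :
    ¬ M y u :=
  gup (y := OrderDual.toDual y) (z := OrderDual.toDual w) (v := OrderDual.toDual u) h.dual c.dual
    hwy ⟨i1.2, i1.1⟩ ⟨i2.2, i2.1⟩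

theorem out_up (h : WMaj M) (c : Cls X) {a q p x : X} (m : Mod a q p) (ia : Inc x a)
    (iq : Inc x q) (ip : Inc x p) : ¬ M p x := by
  intro hM
  have hU : ∀ t, p < t → x < t := fun t ht => by
    by_contra hc
    exact c.h31 a q t x m.lt ((m.u1 t).1 ht) ⟨ia, iq, hi ip ht hc⟩
  have key : ∀ w, w < x → ¬ w < p → Inc w a ∧ Inc w q := fun w h1 h2 =>
    ⟨⟨fun hh => hh.lt_or_eq.elim (fun h3 => h2 ((m.d1 w).2 h3)) fun h3 => ia.2 (h3 ▸ h1.le),
      fun hh => ia.2 (hh.trans h1.le)⟩,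
    ⟨fun hh => hh.lt_or_eq.elim (fun h3 => ((m.d2 w).1 h3).elim (fun h4 => ia.2 (h4 ▸ h1.le)) h2)
      fun h3 => iq.2 (h3 ▸ h1.le), fun hh => iq.2 (hh.trans h1.le)⟩⟩
  obtain ⟨w, hw⟩ := one_of (P := fun s => s < x) (Q := fun s => s < p) x fun s t s1 s2 t1 t2 => by
    by_contra hst
    have j1 := lo ip.symm s1 s2
    have j2 := lo ip.symm t1 t2
    rcases tri hst with h1 | h1 | h1
    · exact c.h31 s t x p h1 t1 ⟨j1, j2, ip.symm⟩
    · exact c.h31 t s x p h1 s1 ⟨j2, j1, ip.symm⟩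
    · exact c.hL x s t a q s1 t1 h1 m.lt ⟨ia, iq, (key s s1 s2).1, (key s s1 s2).2,
        (key t t1 t2).1, (key t t1 t2).2⟩
  have m' := h.ea p x w ip.symm hM hU hw
  have iw := (key w m'.lt fun hh => m'.ia.1 hh.le).1
  rcases h.total a w iw.ne.symm with h1 | h1
  · have m2 := h.eb a w q iw.symm h1 (fun s hs => (m.d1 s).1 ((m'.d1 s).2 hs)) fun t ht =>
      ((m.u2 t).1 ht).symm.imp_left fun h2 => (m'.u2 t).2 (Or.inr h2)
    exact iq.2 ((m2.u1 x).1 m'.lt).le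
  · have m2 := h.eb w a x iw h1 (fun s hs => (m'.d1 s).1 ((m.d1 s).2 hs)) fun t ht =>
      ((m'.u2 t).1 ht).symm.imp_left fun h2 => (m.u2 t).2 (Or.inr h2)
    exact iq.1 ((m2.u1 q).1 m.lt).le

/-- An autonomous copy is an ordinal summand. -/
theorem summand (h : WMaj M) (c : Cls X) {a q p : X} (m : Mod a q p) (x : X) (h1 : x ≠ a)
    (h2 : x ≠ q) (h3 : x ≠ p) : (x < a ∧ x < q ∧ x < p) ∨ (a < x ∧ q < x ∧ p < x) := by
  rcases tri h3 with h4 | h4 | h4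
  · exact Or.inl ⟨(m.d1 x).1 h4, (m.d2 x).2 (Or.inr h4), h4⟩
  · exact Or.inr ⟨(m.u2 x).2 (Or.inr h4), (m.u1 x).1 h4, h4⟩
  · exfalso
    have ia : Inc x a := ⟨fun hh => h4.1 ((m.d1 x).2 (lt_of_le_of_ne hh h1)).le,
      fun hh => ((m.u2 x).1 (lt_of_le_of_ne hh h1.symm)).elim h2 fun h5 => h4.2 h5.le⟩
    have iq : Inc x q := ⟨fun hh => ((m.d2 x).1 (lt_of_le_of_ne hh h2)).elim h1 fun h5 => h4.1 h5.le,
      fun hh => h4.2 ((m.u1 x).2 (lt_of_le_of_ne hh h2.symm)).le⟩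
    rcases h.total p x h3.symm with h5 | h5
    · exact out_up h c m ia iq h4 h5
    · exact out_up (x := OrderDual.toDual x) h.dual c.dual m.dual ⟨iq.2, iq.1⟩ ⟨ia.2, ia.1⟩
        ⟨h4.2, h4.1⟩ h5

end Pool.Agent.FS.StrictGap
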